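import Pool.Agent.Q27.HT.Emb
import Pool.Agent.Q27.SE.Main

/-!
# MP_551055_al: the embedding theorem of Higman, Neumann and Neumann for Farrell–Jones groups

`C` is any class of groups which contains the metabelian groups and has the closure properties
`ClosedA C` (the usual closure properties `ClosedE C` and closure under acylindrical actions on
trees, in the fibered version); all of this is known for the class of the groups which satisfy the
K-theoretic Farrell–Jones conjecture with coefficients and finite wreath products.

For an element `z` let `KC z` be the group of the elements which commute with a positive power of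
`z`. A group has the property `Det` if no positive power of an element `z` of infinite order is in
the commutator subgroup of `KC z`. The property holds for abelian, hyperbolic and CAT(0) groups and
for linear groups in positive characteristic, and it is inherited by groups acting on trees with
virtually cyclic edge stabilizers (`MP_16fe43_al.CyclicHierarchies`), in particular by the HNN
extensions which are used here.

Every countable group `G` with `Det` embeds in a countable group `M` with `Det` in which all
elements of the same order are conjugate, whose elements of finite order have orders of elements of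
`G`, and which is in exactly the same classes `C` as `G`. If `G` is torsion-free, then `M` is
torsion-free and any two nontrivial elements of `M` are conjugate. There is a nontrivial countable
torsion-free group which has only two conjugacy classes and is in all classes `C`.
-/

set_option autoImplicit false

namespace Pool.Agent.Results.MP_551055_al.ConjugateOrders

open Q182.Cyl (ClosedA)
open Q30.FJ (TorsionFree)
open Q27.HT

theorem embed_all (G : Type) [Group G] [Countable G] (hD : Det G) :
    ∃ (M : Type) (_ : Group M) (i : G →* M), Function.Injective i ∧ Countable M ∧ Det M ∧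
      (∀ a b : M, orderOf a = orderOf b → ∃ t : M, b = t * a * t⁻¹) ∧
      (∀ x : M, (∃ n : ℕ, 0 < n ∧ x ^ n = 1) → ∃ y : G, orderOf y = orderOf x) ∧
      (TorsionFree G → TorsionFree M ∧ ∀ a b : M, a ≠ 1 → b ≠ 1 → ∃ t : M, b = t * a * t⁻¹) ∧
      ∀ C : ∀ (G : Type) [Group G], Prop, ClosedA C →
        (∀ (G : Type) [Group G], derivedSeries G 2 = ⊥ → C G) → (C M ↔ C G) := by
  obtain ⟨M, _, i, hi, hM, h1, h2, h3, h4⟩ := embed (Q27.SE.hull_closedA G)
    (Q27.SE.hull_met G) G (Q27.SE.hull_self G) hD
  refine ⟨M, inferInstance, i, hi, h2, h1, h3, h4, fun htf => ?_, fun C hC hm =>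
    ⟨fun h => hC.base.base.of_injective _ _ i hi h, fun h => hM C hC hm h⟩⟩
  have htfM : TorsionFree M := by
    intro x n hn hx
    obtain ⟨y, hy⟩ := h4 x ⟨n, hn, hx⟩
    have h5 : y ^ orderOf x = 1 := by
      rw [← hy]
      exact pow_orderOf_eq_one y
    have h6 : 0 < orderOf x := orderOf_pos_iff.2 (isOfFinOrder_iff_pow_eq_one.2 ⟨n, hn, hx⟩)
    have h7 := htf y _ h6 h5
    rw [h7, orderOf_one] at hy
    exact orderOf_eq_one_iff.1 hy.symm
  refine ⟨htfM, fun a b ha hb => h3 a b ?_⟩
  have h5 : ∀ c : M, c ≠ 1 → orderOf c = 0 := by
    intro c hc
    by_contra hne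
    exact hc (htfM c _ (Nat.pos_of_ne_zero hne) (pow_orderOf_eq_one c))
  rw [h5 a ha, h5 b hb]

/-- 1. Every countable group `G` in which each `z` of infinite order is detected by `KC z` embeds in
a countable group `M` of this kind in which elements of the same order are conjugate and which lies
in the same classes `C` as `G`.

2. There is a nontrivial countable torsion-free group `M` which is in all classes `C`, and whose
nontrivial elements are all conjugate. -/
theorem result :
    (∀ (G : Type) [Group G] [Countable G], Det G →
      ∃ (M : Type) (_ : Group M) (i : G →* M), Function.Injective i ∧ Countable M ∧ Det M ∧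
        (∀ a b : M, orderOf a = orderOf b → ∃ t : M, b = t * a * t⁻¹) ∧
        (∀ x : M, (∃ n : ℕ, 0 < n ∧ x ^ n = 1) → ∃ y : G, orderOf y = orderOf x) ∧
        (TorsionFree G → TorsionFree M ∧ ∀ a b : M, a ≠ 1 → b ≠ 1 → ∃ t : M, b = t * a * t⁻¹) ∧
        ∀ C : ∀ (G : Type) [Group G], Prop, ClosedA C →
          (∀ (G : Type) [Group G], derivedSeries G 2 = ⊥ → C G) → (C M ↔ C G)) ∧
    (∃ (M : Type) (_ : Group M), Nontrivial M ∧ Countable M ∧ TorsionFree M ∧
        (∀ a b : M, a ≠ 1 → b ≠ 1 → ∃ t : M, b = t * a * t⁻¹) ∧
        ∀ C : ∀ (G : Type) [Group G], Prop, ClosedA C →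
          (∀ (G : Type) [Group G], derivedSeries G 2 = ⊥ → C G) → C M) := by
  refine ⟨fun G _ _ hD => embed_all G hD, ?_⟩
  obtain ⟨M, _, i, hi, h1, _, _, _, h5, h6⟩ := embed_all (Multiplicative ℤ)
    (det_comm fun a b => mul_comm a b)
  obtain ⟨h7, h8⟩ := h5 Q182.Tow.int_tf
  refine ⟨M, inferInstance, ⟨i (Multiplicative.ofAdd 1), i 1, fun h => ?_⟩, h1, h7, h8,
    fun C hC hm => (h6 C hC hm).2 hC.base.base.int⟩
  exact absurd (congrArg Multiplicative.toAdd (hi h)) one_ne_zero

end Pool.Agent.Results.MP_551055_al.ConjugateOrders
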