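import Pool.Agent.Q182.TowDiv

/-!
# Divisible acyclic overgroups of torsion-free Farrell–Jones groups

`C` is any class of groups with the closure properties `ClosedE C`, all of which are known for the
class of the groups that satisfy the Full Farrell–Jones Conjecture.

Outline of the proof. Let `G` be a torsion-free group in `C` and let `g ≠ 1` be an element of `G`. The
amalgam of `G` with the infinite cyclic group generated by `h` along `g = h ^ n` has a homomorphism
to the wreath product of `G` with the cyclic group of order `n` which is the diagonal on `G` and sends
`h` to `((g, 1, …, 1), 1)`; it is injective on both factors, so the amalgam is in `C`, and it is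
torsion-free. All pairs `(g, n)` are treated in turn, then the group is replaced by a group in `C` in
which it consists of commutators of the required form (`Q182.Tow.at0_eq`), and all this is iterated.
-/

set_option autoImplicit false

namespace Pool.Agent.Results.MP_551055_al.DivisibleEmbedding

open Pool.Agent.Y110.FJ (ClosedE)
open Q30.FJ (TorsionFree)
open Q182.Tow (Binate)

/-- Let `C` be a class of groups with the closure properties `ClosedE C`. Every countable torsion-free
group `G` in `C` embeds in a countable torsion-free group `D` in `C` such that every element of `D` has
an `n`-th root in `D` for every `n > 0` and `D` is binate: for every finitely generated subgroup `H` of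
`D` there are a homomorphism `φ : H → D` and an element `u` of `D` with `h = u φ(h) u⁻¹ φ(h)⁻¹` for
all `h` in `H`. -/
theorem result (C : ∀ (G : Type) [Group G], Prop) (hC : ClosedE C) (G : Type) [Group G]
    [Countable G] (htf : TorsionFree G) (hG : C G) :
    ∃ (D : Type) (_ : Group D) (i : G →* D), Function.Injective i ∧ C D ∧ TorsionFree D ∧
      Countable D ∧ (∀ (g : D) (n : ℕ), 0 < n → ∃ h : D, h ^ n = g) ∧ Binate D :=
  Q182.Tow.divisible_embed hC G htf hG

end Pool.Agent.Results.MP_551055_al.DivisibleEmbedding
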