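import Pool.Agent.Q147.BL.Pres

/-!
# Stable freeness and the logarithmic law for presentation matrices

`G` is a group, `P` a finitely generated projective `ℤG`-module, norms are operator norms on `ℓ²(G)`.
A matrix `A` presents `P` if `P` is isomorphic to the cokernel of `A`.

* For every `L ≥ 1` the module `P` has presentation matrices of norm at most `3 / √2 + 2⁻ᴸ` with a
  generalised inverse `Y` (`A Y A = A`) such that the size and the norm of `Y` are at most `C L`.
* If `G` is torsion-free then `P` is stably free if and only if `P ⊕ (ℤG)^j` has for some `j` a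
  presentation matrix of norm at most `3 / √2 + 2 ^ (-(16 K + 31))` with a generalised inverse of norm at
  most `K`, and if and only if it has one of norm at most `3 / √2 + 2 ^ (-(2 s + 30))` where `s` is the
  number of rows or columns.

So if `P` is not stably free, then the smallest size and the smallest generalised inverse of the
presentation matrices of norm at most `3 / √2 + δ` are exactly of the order `log (1 / δ)`.
-/

set_option autoImplicit false

namespace Pool.Agent.Results.MP_551055_al.StablyFreeLogarithmicLaw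

open Matrix TH57.FF TH57.Thr
open Pool.Agent.Q147.BL
open Pool.Agent.Q181.LG (Gapped GI Win)

/-- `G` is torsion-free -/
def TorsionFree (G : Type) [Group G] : Prop := ∀ g : G, IsOfFinOrder g → g = 1

/-- the threshold plus `2⁻ᴸ` -/
noncomputable def thr (L : ℕ) : ℝ := 3 / Real.sqrt 2 + (1 / 2) ^ L

/-- the statement of Q1 -/
def Q1 : Prop := ∀ (G : Type) [Group G], TorsionFree G → ∀ (P : Type) [AddCommGroup P]
  [Module (MonoidAlgebra ℤ G) P], Module.Finite (MonoidAlgebra ℤ G) P →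
    Module.Projective (MonoidAlgebra ℤ G) P → StablyFree (MonoidAlgebra ℤ G) P

theorem sf_of_win (G : Type) [Group G] (htf : TorsionFree G) (P : Type) [AddCommGroup P]
    [Module (MonoidAlgebra ℤ G) P] (hP : Module.Projective (MonoidAlgebra ℤ G) P) (j m k : ℕ)
    (A : Matrix (Fin m) (Fin k) (MonoidAlgebra ℤ G))
    (hA : Pres (P × (Fin j → MonoidAlgebra ℤ G)) A)
    (h : NormLE A (thr (2 * min m k + 30)) ∨
      ∃ K : ℕ, (GI A K ∨ Gapped A ((K : ℝ) ^ 2)) ∧ NormLE A (thr (16 * K + 31))) :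
    StablyFree (MonoidAlgebra ℤ G) P := by
  have hP' : Module.Projective (MonoidAlgebra ℤ G) (P × (Fin j → MonoidAlgebra ℤ G)) :=
    inferInstance
  refine SF_prod P j (SF_of_win htf _ hP' A hA ?_)
  rcases h with h | ⟨K, hK, h⟩
  · left
    simp only [Fintype.card_fin]
    exact h
  · right
    refine ⟨K, ?_, h⟩
    rcases hK with hK | hK
    · exact (Pool.Agent.Q190.LG.t_gi G _ _ A).1 K hK
    · exact hK

theorem norm_zero_rows {G : Type} [Group G] (k : ℕ) (c : ℝ) :
    NormLE (0 : Matrix (Fin 0) (Fin k) (MonoidAlgebra ℤ G)) c := by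
  intro x
  have h1 : x ᵥ* toReal (0 : Matrix (Fin 0) (Fin k) (MonoidAlgebra ℤ G)) = 0 := by
    funext j
    simp [Matrix.vecMul, dotProduct]
  rw [h1, Pool.Agent.Q151.LG.normSq_zero']
  exact mul_nonneg (sq_nonneg _) (normSq_nonneg _)

theorem gi_zero_rows {G : Type} [Group G] (k : ℕ) (K : ℝ) :
    GI (0 : Matrix (Fin 0) (Fin k) (MonoidAlgebra ℤ G)) K := by
  refine ⟨0, Subsingleton.elim _ _, fun x => ?_⟩
  have h1 : x ᵥ* toReal (0 : Matrix (Fin k) (Fin 0) (MonoidAlgebra ℤ G)) = 0 :=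
    Subsingleton.elim _ _
  rw [h1, Pool.Agent.Q151.LG.normSq_zero']
  exact mul_nonneg (sq_nonneg _) (normSq_nonneg _)

theorem norm_mono {G : Type} [Group G] {m k : ℕ} {A : Matrix (Fin m) (Fin k) (MonoidAlgebra ℤ G)}
    {L L' : ℕ} (h : L' ≤ L) (hA : NormLE A (thr L)) : NormLE A (thr L') := by
  refine Pool.Agent.Q181.LW.NormLE_mono (by unfold thr; positivity) ?_ hA
  unfold thr
  have : ((1 : ℝ) / 2) ^ L ≤ (1 / 2) ^ L' := pow_le_pow_of_le_one (by norm_num) (by norm_num) h
  linarith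

theorem pres_zero {G : Type} [Group G] (P : Type) [AddCommGroup P]
    [Module (MonoidAlgebra ℤ G) P] (h : StablyFree (MonoidAlgebra ℤ G) P) : ∃ j k : ℕ,
    Pres (P × (Fin j → MonoidAlgebra ℤ G)) (0 : Matrix (Fin 0) (Fin k) (MonoidAlgebra ℤ G)) := by
  obtain ⟨j, k, ⟨e⟩⟩ := h
  have h0 : LinearMap.range (0 : Matrix (Fin 0) (Fin k) (MonoidAlgebra ℤ G)).vecMulLinear = ⊥ := by
    rw [LinearMap.range_eq_bot]
    ext x
    simp
  have e2 : (Fin k → MonoidAlgebra ℤ G) ≃ₗ[MonoidAlgebra ℤ G]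
      ((Fin k → MonoidAlgebra ℤ G) ⧸
        LinearMap.range (0 : Matrix (Fin 0) (Fin k) (MonoidAlgebra ℤ G)).vecMulLinear) := by
    rw [h0]
    exact (Submodule.quotEquivOfEqBot _ rfl).symm
  exact ⟨j, k, ⟨e.trans e2⟩⟩

theorem result :
    -- (1) every finitely generated projective module over every integral group ring has presentation
    -- matrices of norm at most `3 / √2 + 2⁻ᴸ`, whose size and generalised inverse are at most
    -- proportional to `L`
    (∀ (G : Type) [Group G] (P : Type) [AddCommGroup P] [Module (MonoidAlgebra ℤ G) P],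
      Module.Finite (MonoidAlgebra ℤ G) P → Module.Projective (MonoidAlgebra ℤ G) P →
      ∃ C : ℕ, ∀ L : ℕ, 1 ≤ L → ∃ (m k : ℕ) (A : Matrix (Fin m) (Fin k) (MonoidAlgebra ℤ G)),
        Pres P A ∧ m ≤ C * L ∧ k ≤ C * L ∧ NormLE A (thr L) ∧ GI A (C * L : ℕ)) ∧
    -- (2) the stably free modules over the integral group ring of a torsion-free group
    (∀ (G : Type) [Group G], TorsionFree G → ∀ (P : Type) [AddCommGroup P]
      [Module (MonoidAlgebra ℤ G) P], Module.Projective (MonoidAlgebra ℤ G) P →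
      (StablyFree (MonoidAlgebra ℤ G) P ↔
        ∃ (j m k : ℕ) (A : Matrix (Fin m) (Fin k) (MonoidAlgebra ℤ G)) (K : ℕ),
        Pres (P × (Fin j → MonoidAlgebra ℤ G)) A ∧ GI A K ∧ NormLE A (thr (16 * K + 31))) ∧
      (StablyFree (MonoidAlgebra ℤ G) P ↔
        ∃ (j m k : ℕ) (A : Matrix (Fin m) (Fin k) (MonoidAlgebra ℤ G)),
        Pres (P × (Fin j → MonoidAlgebra ℤ G)) A ∧ NormLE A (thr (2 * min m k + 30)))) ∧
    -- (3) a projective module which is not stably free
    (∀ (G : Type) [Group G], TorsionFree G → ∀ (P : Type) [AddCommGroup P]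
      [Module (MonoidAlgebra ℤ G) P], Module.Projective (MonoidAlgebra ℤ G) P →
      ¬ StablyFree (MonoidAlgebra ℤ G) P → ∀ (j m k L : ℕ)
      (A : Matrix (Fin m) (Fin k) (MonoidAlgebra ℤ G)),
      Pres (P × (Fin j → MonoidAlgebra ℤ G)) A → NormLE A (thr L) →
        L < 2 * min m k + 30 ∧ ∀ K : ℕ, (GI A K ∨ Gapped A ((K : ℝ) ^ 2)) → L < 16 * K + 31) ∧
    -- (4) Q1 as a statement about one presentation matrix of each module
    (Q1 ↔ ∀ (G : Type) [Group G], TorsionFree G → ∀ (P : Type) [AddCommGroup P]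
      [Module (MonoidAlgebra ℤ G) P], Module.Finite (MonoidAlgebra ℤ G) P →
      Module.Projective (MonoidAlgebra ℤ G) P → ∃ (j m k K : ℕ)
      (A : Matrix (Fin m) (Fin k) (MonoidAlgebra ℤ G)),
        Pres (P × (Fin j → MonoidAlgebra ℤ G)) A ∧ GI A K ∧ NormLE A (thr (16 * K + 31))) ∧
    -- (5) every presentation matrix of every module
    (∀ (G : Type) [Group G] (P : Type) [AddCommGroup P] [Module (MonoidAlgebra ℤ G) P] (m k : ℕ)
      (A : Matrix (Fin m) (Fin k) (MonoidAlgebra ℤ G)),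
      Pres P A → ∃ C : ℕ, ∀ L : ℕ, 1 ≤ L → ∃ (q : ℕ)
        (B : Matrix (Fin (m + q)) (Fin (k + q)) (MonoidAlgebra ℤ G)),
        Pres P B ∧ q ≤ C * L ∧ NormLE B (thr L) ∧
          (∀ D : ℝ, 0 ≤ D → Gapped A D → Gapped B (C * (D + 1) * L ^ 2)) ∧
          ∀ K : ℝ, 0 ≤ K → GI A K → GI B (C * (K + 1) * L)) := by
  have h2 : ∀ (G : Type) [Group G], TorsionFree G → ∀ (P : Type) [AddCommGroup P]
      [Module (MonoidAlgebra ℤ G) P], Module.Projective (MonoidAlgebra ℤ G) P →
      (StablyFree (MonoidAlgebra ℤ G) P ↔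
        ∃ (j m k : ℕ) (A : Matrix (Fin m) (Fin k) (MonoidAlgebra ℤ G)) (K : ℕ),
        Pres (P × (Fin j → MonoidAlgebra ℤ G)) A ∧ GI A K ∧ NormLE A (thr (16 * K + 31))) ∧
      (StablyFree (MonoidAlgebra ℤ G) P ↔
        ∃ (j m k : ℕ) (A : Matrix (Fin m) (Fin k) (MonoidAlgebra ℤ G)),
        Pres (P × (Fin j → MonoidAlgebra ℤ G)) A ∧ NormLE A (thr (2 * min m k + 30))) := by
    intro G _ htf P _ _ hP
    refine ⟨⟨fun h => ?_, ?_⟩, ⟨fun h => ?_, ?_⟩⟩
    · obtain ⟨j, k, hB⟩ := pres_zero P h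
      exact ⟨j, 0, k, 0, 0, hB, gi_zero_rows k _, norm_zero_rows k _⟩
    · rintro ⟨j, m, k, A, K, hA, hK, hN⟩
      exact sf_of_win G htf P hP j m k A hA (Or.inr ⟨K, Or.inl hK, hN⟩)
    · obtain ⟨j, k, hB⟩ := pres_zero P h
      exact ⟨j, 0, k, 0, hB, norm_zero_rows k _⟩
    · rintro ⟨j, m, k, A, hA, hN⟩
      exact sf_of_win G htf P hP j m k A hA (Or.inl hN)
  refine ⟨fun G _ P _ _ hf hp => ?_, h2, fun G _ htf P _ _ hP hG j m k L A hA hN =>
    ⟨?_, fun K hK => ?_⟩, ⟨fun h G _ htf P _ _ hf hp => ?_, fun h G _ htf P _ _ hf hp => ?_⟩,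
    fun G _ P _ _ m k A hA => Pres_up P A hA⟩
  · obtain ⟨m, A, hA, hAA⟩ := Pres_idem (R := MonoidAlgebra ℤ G) P
    obtain ⟨C, hC⟩ := Pres_up P A hA
    refine ⟨m + C * 2 , fun L hL => ?_⟩
    obtain ⟨q, B, h1, h2, h3, _, h5⟩ := hC L hL
    have hm : m ≤ m * L := Nat.le_mul_of_pos_right m hL
    refine ⟨m + q, m + q, B, h1, ?_, ?_, h3, ?_⟩
    · nlinarith
    · nlinarith
    · have h6 := h5 1 zero_le_one ⟨1, by rw [Matrix.mul_one, hAA], fun x => by
        rw [toReal_one, Matrix.vecMul_one, one_pow, one_mul]⟩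
      refine Pool.Agent.Q151.LG.gi_mono (by positivity) ?_ h6
      push_cast
      have h7 : (0 : ℝ) ≤ m * L := by positivity
      nlinarith
  · by_contra hcon
    push Not at hcon
    exact hG (sf_of_win G htf P hP j m k A hA (Or.inl (norm_mono hcon hN)))
  · by_contra hcon
    push Not at hcon
    exact hG (sf_of_win G htf P hP j m k A hA (Or.inr ⟨K, hK, norm_mono hcon hN⟩))
  · obtain ⟨j, m, k, A, K, h3, h4, h5⟩ := (h2 G htf P hp).1.1 (h G htf P hf hp)
    exact ⟨j, m, k, K, A, h3, h4, h5⟩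
  · obtain ⟨j, m, k, K, A, h3, h4, h5⟩ := h G htf P hf hp
    exact (h2 G htf P hp).1.2 ⟨j, m, k, A, K, h3, h4, h5⟩

end Pool.Agent.Results.MP_551055_al.StablyFreeLogarithmicLaw
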