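import Pool.Agent.Q9.FJV.Tree

/-!
# Quotients by verbal subgroups of free normal subgroups, and product varieties

`C` is any class of groups with the closure properties `ClosedE C`, all of which are known for the
class of the groups that satisfy the K-theoretic Farrell–Jones conjecture with coefficients and
finite wreath products; for every torsion-free group `G` in that class the finitely generated
projective `ZG`-modules are stably free.

For a set `W` of words, `verb W G` is the verbal subgroup of the group `G`, and `verbIn W K` is the
verbal subgroup of the subgroup `K` of `G`, as a subgroup of `G`.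

Outline of the proof. Let `G` act on a tree, and let `R` be the kernel of a homomorphism `ρ` to `Q`
in `C` which is injective on the stabilizers. The labels of the paths from a vertex `v` to its
translates `g v` in the quotient graph of the tree by `R` define a cocycle of `G` with values in the
free group `F(X)` on the set `X` of the oriented edges of this graph, on which `G / R` acts. A choice
of representatives gives a retraction of `F(X)` to `R`. So `G / V(R)` embeds in
`F(X) / V(F(X)) ⋊ Q` (for free groups `G` this is Shmelkin's embedding), and
this group is in `C` by the extension criterion for semidirect products given by permutations.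
-/

set_option autoImplicit false

namespace Pool.Agent.Results.MP_551055_al.VerbalQuotients

open Pool.Agent.Y110.FJ (ClosedE)
open Q9.FJV (verb verbIn)

/-- Let `C` be a class of groups with the closure properties `ClosedE C`, and let `W` be a set of
words such that the relatively free groups of finite rank of the variety with the laws `W` are
in `C`.

1. Let `G` act without inversions on a tree, and let `ρ` be a homomorphism from `G` to a group `Q` in
`C` which is injective on the vertex stabilizers (so its kernel `R` is a free group). Then `G / W(R)`
is in `C`.

2. If `R` is a normal subgroup of a free group `F` (of any rank) with `F / R` in `C`, then `F / W(R)`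
is in `C`.

3. If the relatively free groups of finite rank of another variety, with the laws `U`, are in `C`, then
the relatively free groups (of any rank) of the product variety, `F / W(U(F))`, are in `C`. -/
theorem result (C : ∀ (G : Type) [Group G], Prop) (hC : ClosedE C) (W : Set (FreeGroup ℕ))
    (hW : ∀ n : ℕ, C (FreeGroup (Fin n) ⧸ verb W (FreeGroup (Fin n)))) :
    (∀ (G Q V : Type) [Group G] [Group Q] [MulAction G V] (T : SimpleGraph V) (ρ : G →* Q),
      T.IsTree → (∀ (g : G) (v w : V), T.Adj v w → T.Adj (g • v) (g • w)) →
      (∀ (g : G) (v w : V), T.Adj v w → ¬ (g • v = w ∧ g • w = v)) →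
      (∀ (g : G) (v : V), g • v = v → ρ g = 1 → g = 1) → C Q → C (G ⧸ verbIn W ρ.ker)) ∧
    (∀ (B : Type) (R : Subgroup (FreeGroup B)) [R.Normal], C (FreeGroup B ⧸ R) →
      C (FreeGroup B ⧸ verbIn W R)) ∧
    ∀ U : Set (FreeGroup ℕ), (∀ n : ℕ, C (FreeGroup (Fin n) ⧸ verb U (FreeGroup (Fin n)))) →
      ∀ B : Type, C (FreeGroup B ⧸ verbIn W (verb U (FreeGroup B))) := by
  have h2 : ∀ (B : Type) (R : Subgroup (FreeGroup B)) [R.Normal], C (FreeGroup B ⧸ R) →
      C (FreeGroup B ⧸ verbIn W R) := by
    intro B R _ hR
    have h3 := Q9.FJV.free_mem hC hW hR (QuotientGroup.mk' R)
    have h4 : verbIn W R = verbIn W (QuotientGroup.mk' R).ker := by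
      rw [QuotientGroup.ker_mk']
    exact hC.base.of_injective _ _ (QuotientGroup.quotientMulEquivOfEq h4).toMonoidHom
      (QuotientGroup.quotientMulEquivOfEq h4).injective h3
  refine ⟨fun G Q V _ _ _ T ρ hT hadj hinv hρ hQ =>
    Q9.FJV.tree_mem ρ hC hW hQ hT hadj hinv hρ, h2, fun U hU B => ?_⟩
  exact h2 B (verb U (FreeGroup B)) (Q9.FJV.rf_mem hC.base hU B)

end Pool.Agent.Results.MP_551055_al.VerbalQuotients
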